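import Pool.Agent.Helper94.UP.Sheet

/-! Row A6: the space of null sequences in `Z` has an embedding if `Z` has one. -/

open scoped ZeroAtInfty ContDiff NNReal
open Set Filter Topology

namespace Pool.Agent.Helper94.UP

open Pool.Agent.Helper94.UF Pool.Agent.Helper94.SR

/-- Evaluation at `n` as a continuous linear map. -/
noncomputable def evA6 (Z : Type*) [NormedAddCommGroup Z] [NormedSpace ℝ Z] (n : ℕ) :
    C₀(ℕ, Z) →L[ℝ] Z :=
  LinearMap.mkContinuous
    { toFun := fun x => x n
      map_add' := fun _ _ => rfl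
      map_smul' := fun _ _ => rfl } 1 fun x => by
    simpa using c0_apply_le x n

theorem stA6.{u, v} : ST_A6.{u, v} := by
  intro k Z _ _ Γ K
  refine ⟨{ Φ := fun x p => K.Φ (x p.1) p.2 - K.Φ 0 p.2
            isC0 := ?_
            smooth := ?_
            L := K.L
            L0 := K.L0
            upper := ?_
            c := K.c
            c0 := K.c0
            lower := ?_ }⟩
  · intro x t ht
    have hf : {n : ℕ | t / K.L ≤ ‖x n‖}.Finite := c0_finite x (div_pos ht K.L0)
    refine ((hf.biUnion fun n _ => (((K.isC0 (x n) (t / 2) (half_pos ht)).union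
      (K.isC0 0 (t / 2) (half_pos ht))).image fun γ => (n, γ)))).subset ?_
    rintro ⟨n, γ⟩ h
    simp only [mem_setOf_eq] at h
    refine mem_iUnion₂.2 ⟨n, ?_, γ, ?_, rfl⟩
    · have h1 := K.upper (x n) 0 γ
      rw [sub_zero] at h1
      rw [mem_setOf_eq, div_le_iff₀ K.L0]
      nlinarith
    · by_contra hc
      rw [mem_union, not_or] at hc
      have h1 : |K.Φ (x n) γ| ≤ t / 2 := not_lt.1 hc.1
      have h2 : |K.Φ 0 γ| ≤ t / 2 := not_lt.1 hc.2
      have h3 := abs_sub (K.Φ (x n) γ) (K.Φ 0 γ)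
      linarith
  · rintro ⟨n, γ⟩
    exact ((K.smooth γ).comp (evA6 Z n).contDiff).sub contDiff_const
  · rintro x y ⟨n, γ⟩
    have h1 := K.upper (x n) (y n) γ
    have h2 : ‖x n - y n‖ ≤ ‖x - y‖ := c0_apply_le (x - y) n
    have h3 : K.Φ (x n) γ - K.Φ 0 γ - (K.Φ (y n) γ - K.Φ 0 γ) = K.Φ (x n) γ - K.Φ (y n) γ := by
      ring
    simp only [h3]
    exact h1.trans (mul_le_mul_of_nonneg_left h2 K.L0.le)
  · intro x y r hr h
    have h1 : ‖x - y‖ ≤ r / K.c := by
      refine (c0_norm_le _ (div_nonneg hr K.c0.le)).2 fun n => ?_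
      have h2 := K.lower (x n) (y n) r hr fun γ => by
        have h3 := h (n, γ)
        have h4 : K.Φ (x n) γ - K.Φ 0 γ - (K.Φ (y n) γ - K.Φ 0 γ) =
          K.Φ (x n) γ - K.Φ (y n) γ := by ring
        simp only [h4] at h3
        exact h3
      rw [le_div_iff₀ K.c0, mul_comm]
      exact h2
    rw [le_div_iff₀ K.c0, mul_comm] at h1
    exact h1

end Pool.Agent.Helper94.UP
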